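import Pool.Agent.H940R3.Flow.Ex

open scoped Topology ContDiff ComplexOrder
open MeasureTheory Filter

namespace Pool.Agent.Results.MP_8f0dee_an.LogPole

variable {n : ℕ}

/-- The Wirtinger derivative `∂f/∂z_i` on `ℂ^n`. -/
noncomputable def dz (i : Fin n) (f : (Fin n → ℂ) → ℂ) (x : Fin n → ℂ) : ℂ :=
  (1 / 2) * (fderiv ℝ f x (Pi.single i 1) - Complex.I * fderiv ℝ f x (Pi.single i Complex.I))

/-- The Wirtinger derivative `∂f/∂\bar z_i` on `ℂ^n`. -/
noncomputable def dzbar (i : Fin n) (f : (Fin n → ℂ) → ℂ) (x : Fin n → ℂ) : ℂ :=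
  (1 / 2) * (fderiv ℝ f x (Pi.single i 1) + Complex.I * fderiv ℝ f x (Pi.single i Complex.I))

/-- The complex Hessian matrix `(∂²v/∂z_i∂\bar z_j)(x)` of a real function `v`. -/
noncomputable def cHess (v : (Fin n → ℂ) → ℝ) (x : Fin n → ℂ) : Matrix (Fin n) (Fin n) ℂ :=
  Matrix.of fun i j => dz i (dzbar j fun y => (v y : ℂ)) x

/-- `Ω ⊂ ℂ^n` is a bounded strictly pseudoconvex domain with smooth boundary: it is open, connected
and bounded, and on an open neighbourhood `U` of its closure there is a smooth function `ρ` with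
positive definite complex Hessian such that `Ω = {ρ < 0}` and `dρ ≠ 0` at the boundary points. -/
def IsStrictlyPseudoconvex (Ω : Set (Fin n → ℂ)) : Prop :=
  IsOpen Ω ∧ IsConnected Ω ∧ Bornology.IsBounded Ω ∧
    ∃ (U : Set (Fin n → ℂ)) (ρ : (Fin n → ℂ) → ℝ), IsOpen U ∧ closure Ω ⊆ U ∧
      ContDiffOn ℝ ∞ ρ U ∧ (∀ x ∈ U, (cHess ρ x).PosDef) ∧ Ω = {x ∈ U | ρ x < 0} ∧
      ∀ x ∈ frontier Ω, fderiv ℝ ρ x ≠ 0

/-- `v : ℂ^n → [-∞, ∞]` is plurisubharmonic on the open set `D`: on `D` it is not identically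
`-∞`, nowhere `+∞`, upper semicontinuous, and at the centre `a` of every closed complex disc
`{a + ζ b : |ζ| ≤ 1}` contained in `D` it is at most its mean over the boundary circle (written as:
at most the mean of `max v M`, for every real `M`). -/
def IsPshOn (D : Set (Fin n → ℂ)) (v : (Fin n → ℂ) → EReal) : Prop :=
  (∃ z ∈ D, v z ≠ ⊥) ∧ (∀ z ∈ D, v z ≠ ⊤) ∧ UpperSemicontinuousOn v D ∧
    ∀ (a b : Fin n → ℂ) (M : ℝ), (∀ ζ : ℂ, ‖ζ‖ ≤ 1 → a + ζ • b ∈ D) →
      v a ≤ (((2 * Real.pi)⁻¹ * ∫ θ in (0 : ℝ)..(2 * Real.pi),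
        (max (v (a + Complex.exp (θ * Complex.I) • b)) (M : EReal)).toReal : ℝ) : EReal)

/-- The hypotheses of the problem on the data: `Ω` is a bounded strictly pseudoconvex domain with
smooth boundary, `T > 0`, `u₀` is psh on an open neighbourhood of the closure of `Ω`, and `φ` is a
smooth function on the product of the closure of `Ω` and `[0, T)` with `φ(z, t) = u₀(z)` for all
`z ∈ ∂Ω` and `t ∈ [0, T)`. -/
structure IsFlowData (Ω : Set (Fin n → ℂ)) (T : ℝ) (u₀ : (Fin n → ℂ) → EReal)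
    (φ : (Fin n → ℂ) → ℝ → ℝ) : Prop where
  domain : IsStrictlyPseudoconvex Ω
  time : 0 < T
  psh : ∃ D : Set (Fin n → ℂ), IsOpen D ∧ closure Ω ⊆ D ∧ IsPshOn D u₀
  smooth : ContDiffOn ℝ ∞ (fun p : (Fin n → ℂ) × ℝ => φ p.1 p.2) (closure Ω ×ˢ Set.Ico 0 T)
  boundary : ∀ z ∈ frontier Ω, ∀ t ∈ Set.Ico 0 T, (φ z t : EReal) = u₀ z

/-- `u` is a solution of the flow with initial datum `u₀` and boundary data `φ`: it is smooth on the
product of the closure of `Ω` and `(0, T)`, and satisfies the conditions 1 to 4 of the problem. -/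
structure IsFlowSolution (Ω : Set (Fin n → ℂ)) (T : ℝ) (u₀ : (Fin n → ℂ) → EReal)
    (φ : (Fin n → ℂ) → ℝ → ℝ) (u : (Fin n → ℂ) → ℝ → ℝ) : Prop where
  smooth : ContDiffOn ℝ ∞ (fun p : (Fin n → ℂ) × ℝ => u p.1 p.2) (closure Ω ×ˢ Set.Ioo 0 T)
  psh : ∀ t ∈ Set.Ioo 0 T, ∀ z ∈ Ω, (cHess (fun w => u w t) z).PosDef
  flow : ∀ t ∈ Set.Ioo 0 T, ∀ z ∈ Ω,
    deriv (fun s => u z s) t = Real.log (cHess (fun w => u w t) z).det.re
  boundary : ∀ z ∈ frontier Ω, ∀ t ∈ Set.Ioo 0 T, u z t = φ z t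
  initial : ∀ z ∈ closure Ω, Tendsto (fun t => (u z t : EReal)) (𝓝[>] 0) (𝓝 (u₀ z))

/-- The Euclidean unit ball of `ℂ^n`. -/
def unitBall (n : ℕ) : Set (Fin n → ℂ) := {z | ∑ j, ‖z j‖ ^ 2 < 1}

/-- The function `z ↦ log |z|`, `|z|` the Euclidean norm, with the value `-∞` at the origin. -/
noncomputable def logNorm (z : Fin n → ℂ) : EReal :=
  if z = 0 then ⊥ else ((1 / 2 * Real.log (∑ j, ‖z j‖ ^ 2) : ℝ) : EReal)

/-- For every `n ≥ 1` and `T > 0` the unit ball of `ℂ^n`, the psh function `log |z|` and the boundary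
data `0` satisfy all hypotheses of the problem, but the flow has no solution: question Q1 has a
negative answer in every dimension and for every `T`. -/
theorem result (n : ℕ) (hn : 1 ≤ n) (T : ℝ) (hT : 0 < T) :
    IsFlowData (unitBall n) T logNorm (fun _ _ => 0) ∧
      ¬ ∃ u : (Fin n → ℂ) → ℝ → ℝ, IsFlowSolution (unitBall n) T logNorm (fun _ _ => 0) u := by
  refine ⟨⟨⟨H940R3.Flow.isOpen_uball, H940R3.Flow.isConnected_uball, H940R3.Flow.isBounded_uball,
    Set.univ, H940R3.Flow.rho, isOpen_univ, Set.subset_univ _, H940R3.Flow.contDiff_rho.contDiffOn,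
    fun x _ => H940R3.Flow.posDef_rho x, ?_, fun x hx =>
      H940R3.Flow.fderiv_rho (H940R3.Flow.frontier_uball hx)⟩, hT, ⟨Set.univ, isOpen_univ,
    Set.subset_univ _, ⟨fun _ => 1, Set.mem_univ _, ?_⟩, fun z _ => H940R3.Flow.logNorm_ne_top z,
    H940R3.Flow.logNorm_usc.upperSemicontinuousOn _, fun a b M _ =>
      H940R3.Flow.logNorm_submean a b M⟩, contDiffOn_const, ?_⟩, ?_⟩
  · ext z
    constructor
    · intro hz
      refine ⟨Set.mem_univ _, ?_⟩
      have : ∑ j, ‖z j‖ ^ 2 < 1 := hz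
      change ∑ j, ‖z j‖ ^ 2 - 1 < 0
      linarith
    · rintro ⟨_, hz⟩
      change ∑ j, ‖z j‖ ^ 2 - 1 < 0 at hz
      change ∑ j, ‖z j‖ ^ 2 < 1
      linarith
  · have hne : (fun _ : Fin n => (1 : ℂ)) ≠ 0 := by
      intro h
      have := congrFun h ⟨0, hn⟩
      simp at this
    unfold logNorm
    rw [if_neg hne]
    exact EReal.coe_ne_bot _
  · intro z hz t _
    have h1 := H940R3.Flow.frontier_uball hz
    have hne : z ≠ 0 := by
      rintro rfl
      simp at h1
    unfold logNorm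
    rw [if_neg hne, h1]
    simp
  · rintro ⟨u, hu⟩
    refine H940R3.Flow.no_solution (u₀ := logNorm) (φ := fun _ _ => 0) (u := u) (a := 0) (ν := 1)
      (C := 0) hn H940R3.Flow.isOpen_uball H940R3.Flow.isBounded_uball hT continuousOn_const
      ((hu.smooth.of_le ENat.LEInfty.out).mono (Set.prod_mono subset_closure le_rfl))
      hu.smooth.continuousOn hu.psh hu.flow hu.boundary H940R3.Flow.zero_mem_uball one_pos ?_ ?_
    · filter_upwards [eventually_mem_nhdsWithin] with z hz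
      have hz' : z ≠ 0 := hz
      unfold logNorm
      rw [if_neg hz', H940R3.Flow.nsq_zero, add_zero]
    · have h1 : ∀ᶠ z in 𝓝[≠] (0 : Fin n → ℂ), z ∈ unitBall n :=
        mem_nhdsWithin_of_mem_nhds
          (H940R3.Flow.isOpen_uball.mem_nhds H940R3.Flow.zero_mem_uball)
      filter_upwards [h1] with z hz c hc
      have h2 := (hu.initial z (subset_closure hz)).eventually (gt_mem_nhds hc)
      filter_upwards [h2] with t ht
      exact (EReal.coe_lt_coe_iff.mp ht).le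

end Pool.Agent.Results.MP_8f0dee_an.LogPole
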